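import Pool.Agent.Lib.MP_a3e05c_co.Sharp.Exact
import Pool.Agent.Lib.MP_a3e05c_co.Q.Analytic

set_option autoImplicit false

/-! Schrijver's upper bound for Eulerian orientations, exactly, for all regular simple graphs of
large degree, with the case of equality. -/

namespace Pool.Agent.Results.MP_a3e05c_co.ExactRegular

open Pool.Agent.MP_a3e05c_co

lemma card_filter_any {α : Type} [Fintype α] (p : α → Prop) (h1 h2 : DecidablePred p) :
    (@Finset.filter α p h1 Finset.univ).card = (@Finset.filter α p h2 Finset.univ).card := by
  rw [Subsingleton.elim h1 h2]

/-- There is a constant `d₀` such that for every even `d ≥ d₀` and every finite simple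
`d`-regular graph `G`, the number of Eulerian orientations of `G` is at most
`∏ v, RT(d_v + 1) ^ (1 / (d_v + 1))`, where `RT(n)` is the number of Eulerian orientations of the
complete graph on `n` vertices, and equality holds if and only if adjacency is transitive, that
is, `G` is a disjoint union of complete graphs. -/
theorem result : ∃ d₀ : ℕ, ∀ d : ℕ, d₀ ≤ d → Even d →
    ∀ (V : Type) [Fintype V] [DecidableEq V] (G : SimpleGraph V) [DecidableRel G.Adj],
      (∀ v : V, G.degree v = d) →
      ((((Finset.univ : Finset (V → V → Bool)).filter (fun o =>
          (∀ u w : V, o u w = true → G.Adj u w) ∧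
          (∀ u w : V, G.Adj u w → (o u w = true ↔ o w u = false)) ∧
          (∀ x : V, (Finset.univ.filter (fun w => o x w = true)).card =
                    (Finset.univ.filter (fun w => o w x = true)).card))).card : ℝ)
        ≤ ∏ v : V,
            ((((Finset.univ : Finset (Fin (G.degree v + 1) → Fin (G.degree v + 1) → Bool)).filter
                (fun o =>
                  (∀ u w : Fin (G.degree v + 1), o u w = true →
                      (⊤ : SimpleGraph (Fin (G.degree v + 1))).Adj u w) ∧
                  (∀ u w : Fin (G.degree v + 1),
                      (⊤ : SimpleGraph (Fin (G.degree v + 1))).Adj u w →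
                        (o u w = true ↔ o w u = false)) ∧
                  (∀ x : Fin (G.degree v + 1),
                      (Finset.univ.filter (fun w => o x w = true)).card =
                      (Finset.univ.filter (fun w => o w x = true)).card))).card : ℝ)
              ^ ((1 : ℝ) / ((G.degree v : ℝ) + 1)))) ∧
      ((((Finset.univ : Finset (V → V → Bool)).filter (fun o =>
          (∀ u w : V, o u w = true → G.Adj u w) ∧
          (∀ u w : V, G.Adj u w → (o u w = true ↔ o w u = false)) ∧
          (∀ x : V, (Finset.univ.filter (fun w => o x w = true)).card =
                    (Finset.univ.filter (fun w => o w x = true)).card))).card : ℝ)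
        = ∏ v : V,
            ((((Finset.univ : Finset (Fin (G.degree v + 1) → Fin (G.degree v + 1) → Bool)).filter
                (fun o =>
                  (∀ u w : Fin (G.degree v + 1), o u w = true →
                      (⊤ : SimpleGraph (Fin (G.degree v + 1))).Adj u w) ∧
                  (∀ u w : Fin (G.degree v + 1),
                      (⊤ : SimpleGraph (Fin (G.degree v + 1))).Adj u w →
                        (o u w = true ↔ o w u = false)) ∧
                  (∀ x : Fin (G.degree v + 1),
                      (Finset.univ.filter (fun w => o x w = true)).card =
                      (Finset.univ.filter (fun w => o w x = true)).card))).card : ℝ)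
              ^ ((1 : ℝ) / ((G.degree v : ℝ) + 1))) ↔
        ∀ u v w : V, G.Adj u v → G.Adj v w → u ≠ w → G.Adj u w) := by
  obtain ⟨d₀, h⟩ := exact_of_AnalyticPart analyticPart
  refine ⟨d₀, fun d hd hev V _ _ G _ hG => ?_⟩
  have e : (∏ v : V,
            ((((Finset.univ : Finset (Fin (G.degree v + 1) → Fin (G.degree v + 1) → Bool)).filter
                (fun o =>
                  (∀ u w : Fin (G.degree v + 1), o u w = true →
                      (⊤ : SimpleGraph (Fin (G.degree v + 1))).Adj u w) ∧
                  (∀ u w : Fin (G.degree v + 1),
                      (⊤ : SimpleGraph (Fin (G.degree v + 1))).Adj u w →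
                        (o u w = true ↔ o w u = false)) ∧
                  (∀ x : Fin (G.degree v + 1),
                      (Finset.univ.filter (fun w => o x w = true)).card =
                      (Finset.univ.filter (fun w => o w x = true)).card))).card : ℝ)
              ^ ((1 : ℝ) / ((G.degree v : ℝ) + 1)))) =
      ∏ v : V, ((EO (Fin (G.degree v + 1)) ⊤ : ℝ) ^ ((1 : ℝ) / ((G.degree v : ℝ) + 1))) := by
    unfold EO
    apply Finset.prod_congr rfl
    intro v _
    congr 2
    exact congrArg Nat.cast (card_filter_any _ _ _)
  rw [e]
  exact h d hd hev V G hG

end Pool.Agent.Results.MP_a3e05c_co.ExactRegular
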