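import Pool.Agent.Lib.MP_a3e05c_co.FourE

set_option autoImplicit false

/-! Schrijver's conjectured upper bound for the number of Eulerian orientations holds for all
simple graphs of maximum degree at most four. -/

namespace Pool.Agent.Results.MP_a3e05c_co.MaxDegreeFour

open Pool.Agent.MP_a3e05c_co Pool.Agent.MPa3e05cA

lemma card_filter_any {α : Type} [Fintype α] (p : α → Prop) (h1 h2 : DecidablePred p) :
    (@Finset.filter α p h1 Finset.univ).card = (@Finset.filter α p h2 Finset.univ).card := by
  rw [Subsingleton.elim h1 h2]

lemma bound {V : Type} [Fintype V] [DecidableEq V] [LinearOrder V] (G : SimpleGraph V)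
    [DecidableRel G.Adj] (hev : ∀ v : V, Even (G.degree v)) (h4 : ∀ v : V, G.degree v ≤ 4) :
    (EO V G : ℝ) ≤ ∏ v : V, ((EO (Fin (G.degree v + 1)) ⊤ : ℝ) ^
      ((1 : ℝ) / ((G.degree v : ℝ) + 1))) := by
  have hcase : ∀ v, G.degree v = 0 ∨ G.degree v = 2 ∨ G.degree v = 4 := by
    intro v
    obtain ⟨k, hk⟩ := hev v
    have := h4 v
    omega
  have h1 : (eo (edgesOf (Edg G)) : ℝ) ≤ F1 (edgesOf (Edg G)) := by
    apply stage1
    intro v
    rw [deg_edgesOf]
    exact hcase v
  rw [eo_edgesOf] at h1
  refine h1.trans ?_
  have h2 : Pr p1 (xc ^ 2) (edgesOf (Edg G)) = 1 := by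
    unfold Pr
    apply Finset.prod_eq_one
    intro e _
    have hc := Multiset.nodup_iff_count_le_one.1 (nodup_edgesOf G) e
    unfold wt
    split_ifs with he
    · induction e with | _ x y =>
      have hxy : x = y := by simpa using he
      subst hxy
      rw [Multiset.count_eq_zero.2 (loop_edgesOf G x), pow_zero]
    · unfold p1
      have : Multiset.count e (edgesOf (Edg G)) - 1 = 0 := by omega
      rw [this, pow_zero]
  unfold F1
  rw [h2, mul_one]
  unfold Gm
  apply Finset.prod_le_prod
  · intro v _; exact (γ1_pos _).le
  · intro v _
    rw [deg_edgesOf]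
    rcases hcase v with h | h | h <;> rw [h]
    · rw [γ1_zero]
      have := EO_K1
      simp only [zero_add, Nat.cast_zero, div_one, Real.rpow_one]
      exact this
    · rw [γ1_two]
      have := EO_K3
      norm_num only [Nat.reduceAdd] at *
      rw [this]
      exact le_refl _
    · rw [γ1_four]
      have := EO_K5
      norm_num only [Nat.reduceAdd] at *
      rw [this]
      exact le_refl _

/-- Every finite simple graph with all degrees even and at most `4` has at most
`∏ v, RT(d_v + 1) ^ (1 / (d_v + 1))` Eulerian orientations, where `RT(n)` is the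
number of Eulerian orientations of the complete graph on `n` vertices. -/
theorem result :
    ∀ (V : Type) [Fintype V] [DecidableEq V] (G : SimpleGraph V) [DecidableRel G.Adj],
      (∀ v : V, Even (G.degree v)) → (∀ v : V, G.degree v ≤ 4) →
      (((Finset.univ : Finset (V → V → Bool)).filter (fun o =>
          (∀ u w : V, o u w = true → G.Adj u w) ∧
          (∀ u w : V, G.Adj u w → (o u w = true ↔ o w u = false)) ∧
          (∀ x : V, (Finset.univ.filter (fun w => o x w = true)).card =
                    (Finset.univ.filter (fun w => o w x = true)).card))).card : ℝ)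
        ≤ ∏ v : V,
            ((((Finset.univ : Finset (Fin (G.degree v + 1) → Fin (G.degree v + 1) → Bool)).filter
                (fun o =>
                  (∀ u w : Fin (G.degree v + 1), o u w = true →
                      (⊤ : SimpleGraph (Fin (G.degree v + 1))).Adj u w) ∧
                  (∀ u w : Fin (G.degree v + 1),
                      (⊤ : SimpleGraph (Fin (G.degree v + 1))).Adj u w →
                        (o u w = true ↔ o w u = false)) ∧
                  (∀ x : Fin (G.degree v + 1),
                      (Finset.univ.filter (fun w => o x w = true)).card =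
                      (Finset.univ.filter (fun w => o w x = true)).card))).card : ℝ)
              ^ ((1 : ℝ) / ((G.degree v : ℝ) + 1))) := by
  intro V _ _ G _ hev h4
  let _ : LinearOrder V := LinearOrder.lift' (Fintype.equivFin V) (Fintype.equivFin V).injective
  have h6 := bound G hev h4
  unfold EO at h6
  refine le_trans (le_of_eq ?_) (le_trans h6 (le_of_eq ?_))
  · rfl
  · apply Finset.prod_congr rfl
    intro v _
    congr 2
    exact card_filter_any _ _ _

end Pool.Agent.Results.MP_a3e05c_co.MaxDegreeFour
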