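import Pool.Agent.Lib.MP_a3e05c_co.Sharp.General

set_option autoImplicit false

/-! Schrijver's upper bound for Eulerian orientations with an error factor which tends to one for
large and nearly equal degrees. -/

namespace Pool.Agent.Results.MP_a3e05c_co.NearlyRegular

open Pool.Agent.MP_a3e05c_co

lemma card_filter_any {α : Type} [Fintype α] (p : α → Prop) (h1 h2 : DecidablePred p) :
    (@Finset.filter α p h1 Finset.univ).card = (@Finset.filter α p h2 Finset.univ).card := by
  rw [Subsingleton.elim h1 h2]

/-- There is an absolute constant `C` such that every finite simple graph in which all degrees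
are even and every non-zero degree lies in the interval `[δ, Δ]` has at most
`∏ v, (exp (C (1/δ + (1 - δ/Δ)²)) RT(d_v + 1)) ^ (1 / (d_v + 1))` Eulerian orientations, where
`RT(n)` is the number of Eulerian orientations of the complete graph on `n` vertices. -/
theorem result : ∃ C : ℝ, 0 < C ∧
    ∀ (V : Type) [Fintype V] [DecidableEq V] (G : SimpleGraph V) [DecidableRel G.Adj] (δ Δ : ℝ),
      0 < δ → δ ≤ Δ → (∀ v : V, Even (G.degree v)) →
      (∀ v : V, G.degree v ≠ 0 → δ ≤ (G.degree v : ℝ) ∧ (G.degree v : ℝ) ≤ Δ) →
      (((Finset.univ : Finset (V → V → Bool)).filter (fun o =>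
          (∀ u w : V, o u w = true → G.Adj u w) ∧
          (∀ u w : V, G.Adj u w → (o u w = true ↔ o w u = false)) ∧
          (∀ x : V, (Finset.univ.filter (fun w => o x w = true)).card =
                    (Finset.univ.filter (fun w => o w x = true)).card))).card : ℝ)
        ≤ ∏ v : V,
            ((Real.exp (C * (1 / δ + (1 - δ / Δ) ^ 2)) *
              (((Finset.univ : Finset (Fin (G.degree v + 1) → Fin (G.degree v + 1) →
                Bool)).filter
                (fun o =>
                  (∀ u w : Fin (G.degree v + 1), o u w = true →
                      (⊤ : SimpleGraph (Fin (G.degree v + 1))).Adj u w) ∧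
                  (∀ u w : Fin (G.degree v + 1),
                      (⊤ : SimpleGraph (Fin (G.degree v + 1))).Adj u w →
                        (o u w = true ↔ o w u = false)) ∧
                  (∀ x : Fin (G.degree v + 1),
                      (Finset.univ.filter (fun w => o x w = true)).card =
                      (Finset.univ.filter (fun w => o w x = true)).card))).card : ℝ))
              ^ ((1 : ℝ) / ((G.degree v : ℝ) + 1))) := by
  obtain ⟨C, hC, h⟩ := EO_le_general
  refine ⟨C, hC, ?_⟩
  intro V _ _ G _ δ Δ hδ hΔ hev hdeg
  have h6 := h V G δ Δ hδ hΔ hev hdeg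
  unfold EO at h6
  refine le_trans (le_of_eq ?_) (le_trans h6 (le_of_eq ?_))
  · rfl
  · apply Finset.prod_congr rfl
    intro v _
    congr 3
    exact card_filter_any _ _ _

end Pool.Agent.Results.MP_a3e05c_co.NearlyRegular
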